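import Pool.Agent.TH561.FP.Main

/-!
# Jones polynomials of freely periodic knots and the homology class of the quotient

`Pool.Agent.TH561.PK.Defs` contains the definitions:

* `Elem M`: an elementary tangle on `M` vertical strands: a crossing of one of the two kinds between
  the places `i` and `i + 1`, or a hook (the two lower points at the places `i`, `i + 1` are joined by a
  cap, the two upper points by a cup);
* `annular w dir`: the closure in the annulus of the tangle `w 0, w 1, …, w (L-1)` (one above the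
  other); its marked points are the points `(t, j)` (level `t ∈ ℤ/L`, place `j`);
* `Oriented w dir`: `dir` is an orientation of the curves of this diagram (`dir (t, j) = true`: upwards);
* `linking dir t`: number of the strands directed upwards minus number of the strands directed
  downwards at the level `t`, which is the linking number with the axis of the annulus;
* `IsKnot D`: all marked points are on one curve.

`freeWord n w a` (in `Pool.Agent.TH561.FP.Defs`) is the word `w` repeated `n` times, followed by `a`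
full twists on all `M` strands, that is by the word `(σ_0 σ_1 ⋯ σ_{M-2})^M` repeated `|a|` times, with
crossings of the kind given by the sign of `a`.  So `annular (freeWord n w a) dir` is a knot which is
invariant under a rotation of order `n` around the axis of the annulus combined with a rotation along
the axis; if `a` is prime to `n`, this is a free action of `ℤ/n` on the 3-sphere and the quotient is a
knot in the lens space `L(n, a)`, whose homology class is `λ` times the one of a core, `λ` the linking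
number with the axis.

`Diagram.IsClosed` and `Diagram.fPoly` (the normalised Kauffman bracket) are in
`Pool.Agent.H891R2.Jones.Diagram`.
-/

set_option autoImplicit false

namespace Pool.Agent.Results.MP_42db45_gt.FreelyPeriodicKnots

open LaurentPolynomial Pool.Agent.H891R2.Jones Pool.Agent.TH561.PK Pool.Agent.TH561.FP

theorem exists_prime_pow {n M : ℕ} (h : ¬ n ∣ (Finset.Icc 1 M).lcm id) :
    ∃ p k : ℕ, p.Prime ∧ M < p ^ k ∧ p ^ k ∣ n := by
  rw [Nat.dvd_iff_prime_pow_dvd_dvd] at h
  push Not at h
  obtain ⟨p, k, hp, h1, h2⟩ := h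
  refine ⟨p, k, hp, ?_, h1⟩
  by_contra hcon
  push Not at hcon
  apply h2
  have : p ^ k ∈ Finset.Icc 1 M :=
    Finset.mem_Icc.2 ⟨Nat.one_le_iff_ne_zero.2 (pow_ne_zero k hp.ne_zero), hcon⟩
  exact Finset.dvd_lcm this

theorem unit_coeff (p : ℕ) (hp : p.Prime) (f : ℤ[T;T⁻¹]) (hf : f = 1 ∨ f = -1) :
    ¬ (p : ℤ) ∣ f.coeff 0 ∧ ∀ y, y ≠ 0 → (p : ℤ) ∣ f.coeff y := by
  have h1 : ∀ y : ℤ, (1 : ℤ[T;T⁻¹]).coeff y = if y = 0 then 1 else 0 := by
    intro y
    rw [← T_zero]
    show (Finsupp.single (0 : ℤ) (1 : ℤ)) y = _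
    rw [Finsupp.single_apply]
    simp [eq_comm]
  have hu : ¬ (p : ℤ) ∣ 1 := by
    intro h
    have := Int.eq_one_of_dvd_one (by positivity) h
    have h2 := hp.two_le
    omega
  rcases hf with rfl | rfl
  · refine ⟨?_, fun y hy => ?_⟩
    · rw [h1, if_pos rfl]
      exact hu
    · rw [h1, if_neg hy]
      exact dvd_zero _
  · have h2 : ∀ y : ℤ, (-1 : ℤ[T;T⁻¹]).coeff y = -(1 : ℤ[T;T⁻¹]).coeff y := by
      intro y
      simp
    refine ⟨?_, fun y hy => ?_⟩
    · rw [h2, h1, if_pos rfl, dvd_neg]
      exact hu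
    · rw [h2, h1, if_neg hy, neg_zero]
      exact dvd_zero _

theorem small {q : ℕ} {x : ℤ} (hx : x ≠ 0) (h : (q : ℤ) ∣ x) : q ≤ x.natAbs :=
  Nat.le_of_dvd (Int.natAbs_pos.2 hx) (Int.natCast_dvd.1 h)

/-- Let `D` be a knot diagram which is the closure in the annulus of `w ^ n` followed by `a` full twists
on all strands (a freely periodic knot of order `n` if `a` is prime to `n`), and let `λ` be its linking
number with the axis.

* Let `q = p ^ k ≥ 4` be a prime power which divides `n`.  If the normalised bracket `f_D` has exactly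
  one coefficient which is not divisible by `p`, in particular if `f_D = 1`, then `λ` or `a λ` has the
  value `± 1` modulo `q`; for `p = 2` the former is to be read as `2 λ ≡ ± 2`.  (So the quotient has,
  up to sign and modulo `q`, respectively `q / 2`, the homology class of one of the two cores of the
  lens space.)
* If neither `λ` nor `a λ` is `± 1`, then `f_D ≠ 1` for every order `n` that does not divide
  `lcm(1, 2, …, 2 |λ| + |a λ| + 3)`, that is for all but finitely many `n`, for all tangles `w`. -/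
theorem result (M l n : ℕ) (hl : 0 < l) (hn : 0 < n) (w : Fin l → Elem M) (a : ℤ)
    (dir : Fin (n * l + a.natAbs * (M * (M - 1))) × Fin M → Bool)
    (ho : Oriented (freeWord n w a) dir) (hK : IsKnot (annular (freeWord n w a) dir)) :
    (annular (freeWord n w a) dir).IsClosed ∧
    (∀ t t', linking dir t = linking dir t') ∧
    (∀ p k : ℕ, p.Prime → 4 ≤ p ^ k → p ^ k ∣ n →
      (∃ x, ¬ (p : ℤ) ∣ (annular (freeWord n w a) dir).fPoly.coeff x ∧
        ∀ y, y ≠ x → (p : ℤ) ∣ (annular (freeWord n w a) dir).fPoly.coeff y) →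
      ∀ t, (p ^ k : ℤ) ∣ 2 * (linking dir t - 1) ∨ (p ^ k : ℤ) ∣ 2 * (linking dir t + 1) ∨
        (p ^ k : ℤ) ∣ a * linking dir t - 1 ∨ (p ^ k : ℤ) ∣ a * linking dir t + 1) ∧
    ((annular (freeWord n w a) dir).fPoly = 1 → ∀ p k : ℕ, p.Prime → 4 ≤ p ^ k → p ^ k ∣ n →
      ∀ t, (p ^ k : ℤ) ∣ 2 * (linking dir t - 1) ∨ (p ^ k : ℤ) ∣ 2 * (linking dir t + 1) ∨
        (p ^ k : ℤ) ∣ a * linking dir t - 1 ∨ (p ^ k : ℤ) ∣ a * linking dir t + 1) ∧
    (∀ t, |linking dir t| ≠ 1 → |a * linking dir t| ≠ 1 →
      ¬ n ∣ (Finset.Icc 1 (2 * (linking dir t).natAbs + (a * linking dir t).natAbs + 3)).lcm id →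
      (annular (freeWord n w a) dir).fPoly ≠ 1) := by
  have hM : 0 < M := by
    have := (w ⟨0, hl⟩).2.2
    omega
  have h0 : ∀ p k : ℕ, p.Prime → 4 ≤ p ^ k → p ^ k ∣ n →
      (∃ x, ¬ (p : ℤ) ∣ (annular (freeWord n w a) dir).fPoly.coeff x ∧
        ∀ y, y ≠ x → (p : ℤ) ∣ (annular (freeWord n w a) dir).fPoly.coeff y) →
      ∀ t, (p ^ k : ℤ) ∣ 2 * (linking dir t - 1) ∨ (p ^ k : ℤ) ∣ 2 * (linking dir t + 1) ∨
        (p ^ k : ℤ) ∣ a * linking dir t - 1 ∨ (p ^ k : ℤ) ∣ a * linking dir t + 1 := by
    rintro p k hp hq hpn ⟨x, hx, hx'⟩ t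
    exact free_main_n p k n hp hq hpn hn hM w hl a dir ho hK x hx hx' t
  have h1 : (annular (freeWord n w a) dir).fPoly = 1 → ∀ p k : ℕ, p.Prime → 4 ≤ p ^ k → p ^ k ∣ n →
      ∀ t, (p ^ k : ℤ) ∣ 2 * (linking dir t - 1) ∨ (p ^ k : ℤ) ∣ 2 * (linking dir t + 1) ∨
        (p ^ k : ℤ) ∣ a * linking dir t - 1 ∨ (p ^ k : ℤ) ∣ a * linking dir t + 1 := by
    intro hf p k hp hq hpn t
    obtain ⟨h2, h3⟩ := unit_coeff p hp _ (Or.inl hf)
    exact h0 p k hp hq hpn ⟨0, h2, h3⟩ t
  refine ⟨annular_closed _ dir ho, linking_const _ dir ho, h0, h1, ?_⟩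
  intro t ht1 ht2 hlcm hf
  obtain ⟨p, k, hp, hbig, hpn⟩ := exists_prime_pow hlcm
  have h2 := h1 hf p k hp (by omega) hpn t
  have hcast : ((p ^ k : ℕ) : ℤ) = (p : ℤ) ^ k := by push_cast; rfl
  rw [← hcast] at h2
  generalize p ^ k = q at h2 hbig
  generalize linking dir t = lam at *
  generalize a * lam = mu at *
  rcases h2 with h | h | h | h
  · have h3 : (2 * (lam - 1) : ℤ) ≠ 0 := by
      intro h4
      apply ht1
      have : lam = 1 := by omega
      rw [this]; rfl
    have := small h3 h
    omega
  · have h3 : (2 * (lam + 1) : ℤ) ≠ 0 := by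
      intro h4
      apply ht1
      have : lam = -1 := by omega
      rw [this]; rfl
    have := small h3 h
    omega
  · have h3 : (mu - 1 : ℤ) ≠ 0 := by
      intro h4
      apply ht2
      have : mu = 1 := by omega
      rw [this]; rfl
    have := small h3 h
    omega
  · have h3 : (mu + 1 : ℤ) ≠ 0 := by
      intro h4
      apply ht2
      have : mu = -1 := by omega
      rw [this]; rfl
    have := small h3 h
    omega

end Pool.Agent.Results.MP_42db45_gt.FreelyPeriodicKnots
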