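import Pool.Agent.H891R2.MT.T8

/-!
# Jones polynomials of links with lacunary twist numbers

`Pool.Agent.H891R2.MT.Defs` and `Pool.Agent.H891R2.Jones.Diagram` contain the definitions:
`Ribbon k` (a ribbon graph with `k` edges: rotation system on its `2k` darts), `Ribbon.verts`,
`Ribbon.comps`, `Ribbon.Planar` (connected and Euler's formula: a connected plane graph),
`Ribbon.link n` (the unoriented link diagram which is the boundary of the surface made of one disc
for every vertex and, for every edge `e`, a band with `n e ∈ ℤ` half twists, that is, a row of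
`|n e|` crossings; every connected diagram is of this kind with all `n e = ±1`), `Diagram`
(oriented diagrams with marked points), `Diagram.IsClosed`, `Orients D U` (`D` is the diagram `U`
with directions), `Diagram.fPoly` (the normalised Kauffman bracket `(-A^{-3})^{w(D)} ⟨D⟩`).
`Ribbon.Bridgeless S` (in `Pool.Agent.H891R2.MT.T8`): no edge of `S` is a bridge of the graph with
edge set `S`, that is, `S` is a union of cycles.

The proof uses the state sum of the starting modules `Pool.Agent.H891R2.MT` over the unions of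
cycles, in which the flow polynomials are monic: the terms of different values of `n(S)` do not
interact if `n` is lacunary.
-/

set_option autoImplicit false

namespace Pool.Agent.Results.MP_42db45_gt.LacunaryTwists

open Finset LaurentPolynomial Pool.Agent.H891R2.Jones Pool.Agent.H891R2.MT

/-- the sums of `n` over any two unions of cycles are equal or differ by more than `L` -/
def Lacunary {k : ℕ} (Γ : Ribbon k) (L : ℕ) (n : Fin k → ℤ) : Prop :=
  ∀ S S' : Finset (Fin k), Γ.Bridgeless S → Γ.Bridgeless S' →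
    ∑ e ∈ S, n e = ∑ e ∈ S', n e ∨ (L : ℤ) < |∑ e ∈ S, n e - ∑ e ∈ S', n e|

/-- the exponents of `A` in the normalised bracket of `D` lie in an interval of length `4 s`: the
Jones polynomial, as a Laurent polynomial in `t = A^{-4}`, has span at most `s` -/
def JonesSpanLE {P : Type} (s : ℕ) (D : Diagram P) : Prop :=
  ∃ lo : ℤ, ∀ j : ℤ, D.fPoly.coeff j ≠ 0 → lo ≤ j ∧ j ≤ lo + 4 * s

variable {k : ℕ}

lemma width (Γ : Ribbon k) (hΓ : Γ.Planar) (hk0 : 0 < k) (n : Fin k → ℤ) (L : ℕ)
    (hL : 2 * k + 2 ≤ L) (hn : Lacunary Γ L n) (s : ℕ) (h : SpanLE s (Γ.link n))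
    (S S' : Finset (Fin k)) (hS : Γ.Bridgeless S) (hS' : Γ.Bridgeless S') :
    |∑ e ∈ S, n e - ∑ e ∈ S', n e| ≤ s + 3 * k + Γ.verts + 3 := by
  have hne : Nonempty (Ribbon.Pt n) := ⟨⟨⟨0, hk0⟩, 0, true⟩⟩
  obtain ⟨lo, hb⟩ := T7.bracket_span _ _ h
  have hid := identity Γ hΓ hk0 n
  have hd : T4b.SIn ((-T 2 - T (-2) : ℤ[T;T⁻¹]) ^ (1 + (Γ.verts + k)))
      (-2 * (1 + (Γ.verts + k) : ℕ)) (2 * (1 + (Γ.verts + k) : ℕ)) := by
    refine (T4b.SIn_d.pow _).mono ?_ ?_ <;> linarith
  have hg := (((T4b.SIn_sgn (nS n univ).natAbs).mul (T4b.SIn.T (3 * nS n univ))).mul hd).mul hb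
  have hc : ∀ S : Finset (Fin k), Γ.cpoly S = 0 ∨ (Γ.cpoly S).Monic :=
    fun S => (cpoly_zero_or_monic Γ S).imp id And.left
  have hD : ∀ S : Finset (Fin k), (Γ.cpoly S).natDegree ≤ k + 1 := fun S => by
    rcases cpoly_zero_or_monic Γ S with h1 | ⟨_, h1⟩
    · rw [h1]; simp
    · rw [h1]
      have h2 := card_add_comps_le Γ S
      rw [hΓ.1] at h2
      exact h2
  have hgap : ∀ S S' : Finset (Fin k), Γ.cpoly S ≠ 0 → Γ.cpoly S' ≠ 0 →
      |nS n S - nS n S'| ≤ ((2 * k + 2 : ℕ) : ℤ) → nS n S = nS n S' := by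
    intro S S' h1 h2 h3
    rcases hn S S' (cpoly_ne_zero_iff Γ S h1) (cpoly_ne_zero_iff Γ S' h2) with h4 | h4
    · exact h4
    · exfalso
      unfold nS at h3
      have : ((2 * k + 2 : ℕ) : ℤ) ≤ L := by exact_mod_cast hL
      omega
  have hv := T8.value_coeff Γ.cpoly (k + 1) (2 * k + 2) hc hD (by omega) n hgap
  obtain ⟨j1, a1, b1, c1⟩ := hv S (cpoly_monic Γ S hS).1.ne_zero
  obtain ⟨j2, a2, b2, c2⟩ := hv S' (cpoly_monic Γ S' hS').1.ne_zero
  have hid' : ∑ S, T4b.term Γ.cpoly n S = _ := hid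
  rw [hid'] at c1 c2
  have d1 := hg j1 c1
  have d2 := hg j2 c2
  unfold nS at a1 b1 a2 b2 d1 d2
  rw [abs_le]
  push_cast at *
  constructor <;> omega

lemma spanLE_of {s : ℕ} {n : Fin k → ℤ} {Γ : Ribbon k} {D : Diagram (Ribbon.Pt n)}
    (h1 : Orients D (Γ.link n)) (h2 : D.IsClosed) (h3 : JonesSpanLE s D) : SpanLE s (Γ.link n) :=
  ⟨D, h1, h2, h3⟩

lemma JonesSpanLE.mono {P : Type} {s s' : ℕ} {D : Diagram P} (h : JonesSpanLE s D) (hs : s ≤ s') :
    JonesSpanLE s' D := by
  obtain ⟨lo, h⟩ := h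
  refine ⟨lo, fun j hj => ⟨(h j hj).1, (h j hj).2.trans ?_⟩⟩
  have : (s : ℤ) ≤ s' := by exact_mod_cast hs
  linarith

lemma jonesSpanLE_one {P : Type} {D : Diagram P} (h : D.fPoly = 1) : JonesSpanLE 0 D := by
  refine ⟨0, fun j hj => ?_⟩
  rw [h, ← T_zero] at hj
  have h1 := (T4b.SIn.T 0) j hj
  exact ⟨h1.1, by simpa using h1.2⟩

lemma lac_of_dvd (Γ : Ribbon k) (L : ℕ) (n : Fin k → ℤ) (h : ∀ e, ((L : ℤ) + 1) ∣ n e) :
    Lacunary Γ L n := by
  intro S S' _ _
  by_cases h0 : ∑ e ∈ S, n e = ∑ e ∈ S', n e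
  · exact Or.inl h0
  · right
    have h1 : ((L : ℤ) + 1) ∣ ∑ e ∈ S, n e - ∑ e ∈ S', n e :=
      dvd_sub (Finset.dvd_sum fun e _ => h e) (Finset.dvd_sum fun e _ => h e)
    have h2 := Int.le_of_dvd (abs_pos.2 (sub_ne_zero.2 h0)) ((dvd_abs _ _).2 h1)
    linarith

/-- **Jones polynomials of links with lacunary twist numbers.**  Let `Γ` be a connected plane graph
with `v` vertices and `k ≥ v` edges (not a tree), and let `D` be the link diagram with `|n e|`
crossings on the edge `e`, with arbitrary directions.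

* If the sums of `n` over any two unions of cycles of `Γ` are equal or differ by more than
  `4 k + 3`, then the Jones polynomial of `D` has span larger than `k - v`, which is at least the
  one of the unlink with `k + 2 - v` components; in particular `f ≠ 1`.
* This holds if all the `n e` are divisible by `4 k + 4`: the Jones polynomial never becomes trivial
  if the crossings of a diagram with `k` crossings are replaced by rows of `(4 k + 4) m e`
  crossings, `m e ∈ ℤ` arbitrary.
* If the sums of `n` over any two unions of cycles are equal or differ by more than `L ≥ 2 k + 2`,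
  then the span of the Jones polynomial of `D` is at least `|n(S) - n(S')| - (3 k + v + 3)` for
  all unions of cycles `S`, `S'`. -/
theorem result (k : ℕ) (hk0 : 0 < k) (Γ : Ribbon k) (hΓ : Γ.Planar) (hk : Γ.verts ≤ k) :
    (∀ n : Fin k → ℤ, Lacunary Γ (4 * k + 3) n → ∀ D : Diagram (Ribbon.Pt n),
      Orients D (Γ.link n) → D.IsClosed → ¬ JonesSpanLE (k - Γ.verts) D ∧ D.fPoly ≠ 1) ∧
    (∀ n : Fin k → ℤ, (∀ e, (4 * k + 4 : ℤ) ∣ n e) → ∀ D : Diagram (Ribbon.Pt n),
      Orients D (Γ.link n) → D.IsClosed → ¬ JonesSpanLE (k - Γ.verts) D ∧ D.fPoly ≠ 1) ∧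
    ∀ (L : ℕ), 2 * k + 2 ≤ L → ∀ n : Fin k → ℤ, Lacunary Γ L n → ∀ (s : ℕ)
      (D : Diagram (Ribbon.Pt n)), Orients D (Γ.link n) → D.IsClosed → JonesSpanLE s D →
      ∀ S S' : Finset (Fin k), Γ.Bridgeless S → Γ.Bridgeless S' →
        |∑ e ∈ S, n e - ∑ e ∈ S', n e| - (3 * k + Γ.verts + 3) ≤ s := by
  have key : ∀ n : Fin k → ℤ, Lacunary Γ (4 * k + 3) n → ∀ D : Diagram (Ribbon.Pt n),
      Orients D (Γ.link n) → D.IsClosed → ¬ JonesSpanLE (k - Γ.verts) D ∧ D.fPoly ≠ 1 := by
    intro n hn D hD hc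
    have h1 : ¬ SpanLE (k - Γ.verts) (Γ.link n) := by
      refine lacunary Γ hΓ hk0 hk n fun S S' hS hS' h => ?_
      rcases hn S S' hS hS' with h2 | h2
      · exact h2
      · push_cast at h2
        omega
    refine ⟨fun h => h1 (spanLE_of hD hc h), fun h => h1 (spanLE_of hD hc ?_)⟩
    exact (jonesSpanLE_one h).mono (Nat.zero_le _)
  refine ⟨key, fun n hn => key n (lac_of_dvd Γ _ n fun e => ?_), ?_⟩
  · have := hn e
    push_cast
    convert this using 1
    ring
  · intro L hL n hn s D hD hc h S S' hS hS'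
    have := width Γ hΓ hk0 n L hL hn s (spanLE_of hD hc h) S S' hS hS'
    linarith

end Pool.Agent.Results.MP_42db45_gt.LacunaryTwists
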