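import Pool.Agent.Y463.SK.Gen

/-!
# The Jones polynomials of the links obtained by inserting powers of arbitrary braids

Diagrams (starting library `Pool.Agent.H891R2.Jones.Diagram`): `Diagram P` (oriented link diagrams),
`Diagram.fPoly` (the normalised bracket `(-A^{-3})^{w(D)} ⟨D⟩`), `Diagram.IsClosed` (the pieces of the
diagram fit together to closed oriented curves), `Outer m` (the part of an oriented diagram outside a
box through which `m` strands run, with arbitrary directions), `Outer.close` (fills the rest of the box
with vertical strands).  Starting library `Pool.Agent.W639.RB.Defs`: `Letter m` (the letters `σ_i^{±1}` of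
the braid group on `m` strands).

Definitions of `Pool.Agent.Y463.SK.Defs`, for words `w` (lists of letters): `powW w n` (the power `w^n`,
`n ∈ ℤ`), `permW w` (the permutation of the strands), `IsPure w` (`permW w = 1`: `w` is a pure braid),
`dia O w` (the diagram obtained by drawing `w` in the box of `O` and filling the rest of the box with
vertical strands), `multiW w v n = w_1^{n_1} v_1 w_2^{n_2} v_2 ⋯ w_k^{n_k} v_k`.
-/

set_option autoImplicit false

namespace Pool.Agent.Results.MP_42db45_gt.PowersOfArbitraryBraids

open Finset LaurentPolynomial Pool.Agent.H891R2.Jones Pool.Agent.W639.RB Pool.Agent.Y463.SK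

/-- **Powers of arbitrary braids and the Jones polynomial.**  Let `O` be the outside of a box with
`m ≥ 1` strands and `F` a Laurent polynomial, for instance `F = 1`, the normalised bracket of the unknot.

1. *One braid.*  Let `w`, `v` be arbitrary braid words on `m` strands and let `r ≥ 1` be such that the
  braid `w^r` is pure (for instance the order of the permutation of `w`).  The set of all `n ∈ ℤ` for
  which the diagram with the braid `w^n v` in the box has the normalised bracket `F` consists of
  the residue classes modulo `r` in a set `R` and of at most `(r - |R|) m!` further integers: in each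
  residue class all the diagrams or at most `m!` of them have the normalised bracket `F`.

2. *Several braids.*  Let `w_1, …, w_k` and `v_1, …, v_k` be braid words on `m` strands, let `r_i` be
  such that `w_i^{r_i}` is pure, let `s ∈ ℤ^k`, and for `q ∈ ℤ^k` let `D(q)` be the diagram obtained by drawing
  the braid `w_1^{n_1} v_1 w_2^{n_2} v_2 ⋯ w_k^{n_k} v_k`, `n_i = r_i q_i + s_i`, in the box.  If the outside
  closes up to closed curves and the permutation of this braid preserves the directions of the strands
  for `q = 0`, then all `D(q)` are diagrams of oriented links.  Either all the `D(q)` have the normalised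
  bracket `F`, or for all finite sets `A_1, …, A_k` of integers at most `m! ∑_i ∏_{j ≠ i} |A_j|` of
  the `∏_j |A_j|` diagrams `D(q)` with `q ∈ A_1 × ⋯ × A_k` have it. -/
theorem result (m : ℕ) (hm : 0 < m) (O : Outer m) (F : ℤ[T;T⁻¹]) :
    (∀ (w v : List (Letter m)) (r : ℕ), 0 < r → IsPure (powW w r) →
      ∃ R E : Finset ℤ, (∀ s ∈ R, 0 ≤ s ∧ s < r) ∧ E.card ≤ (r - R.card) * m.factorial ∧
        ∀ n : ℤ, (dia O (powW w n ++ v)).fPoly = F ↔ n % r ∈ R ∨ n ∈ E) ∧
    (∀ (k : ℕ) (w v : Fin k → List (Letter m)) (r : Fin k → ℕ),
      (∀ i, IsPure (powW (w i) (r i))) → ∀ s : Fin k → ℤ,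
      (O.close.IsClosed → (∀ j, O.up (permW (multiW w v s) j) = O.up j) →
        ∀ q : Fin k → ℤ, (dia O (multiW w v (fun i => r i * q i + s i))).IsClosed) ∧
      ((∀ q : Fin k → ℤ, (dia O (multiW w v (fun i => r i * q i + s i))).fPoly = F) ∨
        ∀ (A : Fin k → Finset ℤ) (B : Finset (Fin k → ℤ)),
          (∀ q ∈ B, (∀ i, q i ∈ A i) ∧
            (dia O (multiW w v (fun i => r i * q i + s i))).fPoly = F) →
          B.card ≤ m.factorial * ∑ i, ∏ j ∈ univ.erase i, (A j).card)) := by
  classical
  refine ⟨?_, ?_⟩
  · intro w v r hr hp
    have hr' : (0 : ℤ) < r := by exact_mod_cast hr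
    have key : ∀ s : ℤ, (∀ q : ℤ, (dia O (powW w (r * q + s) ++ v)).fPoly = F) ∨
        ∀ Z : Finset ℤ, (∀ z ∈ Z, (dia O (powW w (r * z + s) ++ v)).fPoly = F) →
          Z.card ≤ m.factorial := by
      intro s
      have h1 : ∀ n : ℤ, (dia O (powW w n ++ v)).fPoly = ff O (powL (toN w) n ++ toN v) := by
        intro n
        rw [dia_fPoly, toN_append, toN_pow]
      simp only [h1]
      refine single_general hm O (toN w) (toN_lt w) r ?_ s (toN v) (toN_lt v) F
      rw [← toN_pow]
      exact permL_of_pure hp
    set R : Finset ℤ := (Finset.Ico (0 : ℤ) r).filter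
      (fun s => ∀ q : ℤ, (dia O (powW w (r * q + s) ++ v)).fPoly = F) with hR
    set R' : Finset ℤ := (Finset.Ico (0 : ℤ) r).filter
      (fun s => ¬ ∀ q : ℤ, (dia O (powW w (r * q + s) ++ v)).fPoly = F) with hR'
    -- in the other residue classes the exceptional `q` form a finite set
    have hex : ∀ s : ℤ, ∃ Z : Finset ℤ, s ∈ R' → Z.card ≤ m.factorial ∧
        ∀ q : ℤ, (dia O (powW w (r * q + s) ++ v)).fPoly = F → q ∈ Z := by
      intro s
      by_cases hs : s ∈ R'
      · rcases key s with h | h
        · rw [hR', Finset.mem_filter] at hs
          exact absurd h hs.2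
        · have hfin : {q : ℤ | (dia O (powW w (r * q + s) ++ v)).fPoly = F}.Finite := by
            by_contra hinf
            obtain ⟨Z, hZ, hZc⟩ := (Set.Infinite.exists_subset_card_eq hinf (m.factorial + 1))
            have := h Z (fun z hz => hZ hz)
            omega
          refine ⟨hfin.toFinset, fun _ => ⟨?_, ?_⟩⟩
          · apply h
            intro z hz
            exact (Set.Finite.mem_toFinset hfin).1 hz
          · intro q hq
            exact (Set.Finite.mem_toFinset hfin).2 hq
      · exact ⟨∅, fun h => absurd h hs⟩
    choose Z hZ using hex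
    have hcard : R'.card = r - R.card := by
      have h1 : R.card + R'.card = (Finset.Ico (0 : ℤ) r).card :=
        Finset.card_filter_add_card_filter_not _
      rw [Int.card_Ico, sub_zero, Int.toNat_natCast] at h1
      omega
    set E : Finset ℤ := R'.biUnion (fun s => ((Z s).filter
      (fun q : ℤ => (dia O (powW w (r * q + s) ++ v)).fPoly = F)).image
        (fun q : ℤ => r * q + s)) with hE
    refine ⟨R, E, ?_, ?_, ?_⟩
    · intro s hs
      rw [hR, Finset.mem_filter, Finset.mem_Ico] at hs
      exact hs.1
    · calc E.card ≤ ∑ s ∈ R', (((Z s).filter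
          (fun q : ℤ => (dia O (powW w (r * q + s) ++ v)).fPoly = F)).image
            (fun q : ℤ => r * q + s)).card := Finset.card_biUnion_le
        _ ≤ ∑ _s ∈ R', m.factorial := by
            refine Finset.sum_le_sum fun s hs => ?_
            exact Finset.card_image_le.trans ((Finset.card_filter_le _ _).trans (hZ s hs).1)
        _ = (r - R.card) * m.factorial := by
            rw [Finset.sum_const, smul_eq_mul, hcard]
    · intro n
      have hdiv : (r : ℤ) * (n / r) + n % r = n := Int.mul_ediv_add_emod n r
      have h0 : 0 ≤ n % r := Int.emod_nonneg n hr'.ne'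
      have h2 : n % r < r := Int.emod_lt_of_pos n hr'
      constructor
      · intro h
        by_cases hn : n % r ∈ R
        · exact Or.inl hn
        · right
          have hn' : n % r ∈ R' := by
            rw [hR', Finset.mem_filter, Finset.mem_Ico]
            refine ⟨⟨h0, h2⟩, fun h3 => hn ?_⟩
            rw [hR, Finset.mem_filter, Finset.mem_Ico]
            exact ⟨⟨h0, h2⟩, h3⟩
          rw [hE, Finset.mem_biUnion]
          refine ⟨n % r, hn', ?_⟩
          rw [Finset.mem_image]
          refine ⟨n / r, ?_, hdiv⟩
          rw [Finset.mem_filter]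
          have h4 : (dia O (powW w (r * (n / r) + n % r) ++ v)).fPoly = F := by
            rw [hdiv]
            exact h
          exact ⟨(hZ _ hn').2 _ h4, h4⟩
      · rintro (h | h)
        · rw [hR, Finset.mem_filter] at h
          have := h.2 (n / r)
          rwa [hdiv] at this
        · rw [hE, Finset.mem_biUnion] at h
          obtain ⟨s, _, h⟩ := h
          rw [Finset.mem_image] at h
          obtain ⟨q, hq, h⟩ := h
          rw [Finset.mem_filter] at hq
          rw [← h]
          exact hq.2
  · intro k w v r hr s
    refine ⟨fun hO hv q => multi_general_closed O w v r hr s hO hv q, ?_⟩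
    refine (multi_general hm O w v r hr s F).imp id fun h A B hB => ?_
    refine (Finset.card_le_card ?_).trans (h A)
    intro q hq
    rw [Finset.mem_filter, Fintype.mem_piFinset]
    exact hB q hq

end Pool.Agent.Results.MP_42db45_gt.PowersOfArbitraryBraids
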