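import Pool.Agent.Q262.BP.Fin

/-!
# Jones polynomials along infinite random braid words

Diagrams (starting library `Pool.Agent.H891R2.Jones.Diagram`): `Diagram P` (oriented link diagrams with
marked points `P`), `Diagram.fPoly` (the normalised bracket `(-A^{-3})^{w(D)} ⟨D⟩`, that is the Jones
polynomial in the variable `A = t^{-1/4}`), `Outer m` (the part of an oriented diagram outside a box through
which `m` strands run, with arbitrary directions; neither planarity nor closedness is required).
`Pool.Agent.W639.RB.Defs` (starting library): `Letter m = Bool × Fin (m - 1)` (the letters `σ_i^{±1}`),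
`diagram O w` (the diagram obtained by drawing the word `w : Fin n → Letter m` in the box of `O`),
`braidClosure m` (the outside for the usual closure of braids).  `Pool.Agent.Y463.MP.Defs` (starting
library): `nonmult N f` (the number of the coefficients of the Laurent polynomial `f` which are not divisible
by `N`), `osize O`, `dsize D` (the number of crossings and marked points of an outside and of a diagram).

`Pool.Agent.Q262.BP.Base`: `win x i L` (the letters `x i, …, x (i + L - 1)` of the infinite word `x`);
`Pool.Agent.Q262.BP.Fin`: `J O x i j` (the normalised bracket of `diagram O (win x i (j - i))`, i.e. of the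
diagram obtained by drawing the letters `x i, …, x (j - 1)` in the box of `O`).

The starting theorem `RandomBraidsModN` bounds, for ONE random word of length `n` and ONE outside, the
probability of a given polynomial modulo `N` by `C r^n`.  Here the letters `x 0, x 1, …` form an infinite
random word and all its windows are considered at the same time, together with polynomially many outsides,
polynomials and moduli; and the polynomials of two windows, which may overlap, are compared.  For two windows
`[i, j)`, `[i', j')` with `j < j'` one fixes the letters before `max i' j`: the polynomial of the first window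
is then constant, and the second diagram is a random word of length `j' - max i' j` in the box of the outside
which is obtained by drawing the known letters.
-/

set_option autoImplicit false

namespace Pool.Agent.Results.MP_42db45_gt.RandomBraidPaths

open MeasureTheory ProbabilityTheory Pool.Agent.H891R2.Jones Pool.Agent.W639.RB Pool.Agent.Y463.MP
open Pool.Agent.Q262.BP LaurentPolynomial Filter

/-- `X 0, X 1, …` are independent random letters with the distribution `p` -/
def IsRandomWord {m : ℕ} (p : Letter m → ℝ) {Ω : Type} [MeasurableSpace Ω] (P : Measure Ω)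
    (X : ℕ → Ω → Letter m) : Prop :=
  iIndepFun X P ∧ ∀ k x, P {ω | X k ω = x} = ENNReal.ofReal (p x)

/-- Let `m ≥ 3`, let `p` be a probability vector on the letters `σ_i^{±1}` of the braid group on `m` strands
without zeros, and let `A` be a natural number.  There is `K > 0`, and for every modulus `M ≥ 2` and every
`κ` there is `δ > 0`, such that for every infinite word `x = X(ω)` of independent random letters with the
distribution `p`, all sequences of outsides `O 0, O 1, …` and of Laurent polynomials `g 0, g 1, …`, almost
surely for all large `n` the windows of length at least `K log (n + 1)` among the first `n` letters behave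
as follows.  Let `s, t, N < (n + 1)^A` and `N ≥ 2`.

* For every such window `[i, j)`, the normalised bracket in the box of `O s` is not congruent to `g t`
  modulo `N`.
* It is not congruent modulo `N` to the one of an earlier window, and more generally: if `[i, j)` is any
  window, short or empty ones are allowed, and `j' - j` and `j' - i'` are at least `K log (n + 1)`, then the
  normalised bracket of `[i, j)` in the box of `O s` and that of `[i', j')` in the box of `O t` are not
  congruent modulo `N`.  (So the links which are the closures of the first `j` and of the first `j'` letters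
  have different Jones polynomials for all large `j'` and all `j ≤ j' - K log (j' + 1)`.)
* If the size of `O s` is at most `κ (j - i + 1)`, more than `δ (j - i)` coefficients are not divisible by
  `M`, and the bracket is not congruent modulo `M` to the one of any diagram with at most `δ (j - i)`
  crossings and marked points. -/
theorem result (m : ℕ) (hm : 3 ≤ m) (p : Letter m → ℝ) (hp : ∀ x, 0 < p x) (hs : ∑ x, p x = 1)
    (A : ℕ) : ∃ K : ℝ, 0 < K ∧ ∀ M : ℕ, 2 ≤ M → ∀ κ : ℝ, ∃ δ : ℝ, 0 < δ ∧
      ∀ (Ω : Type) [MeasurableSpace Ω] (P : Measure Ω) (X : ℕ → Ω → Letter m),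
        IsRandomWord p P X → ∀ (O : ℕ → Outer m) (g : ℕ → ℤ[T;T⁻¹]),
        ∀ᵐ ω ∂P, ∀ᶠ n : ℕ in atTop,
          (∀ i j s t N : ℕ, j ≤ n → i + K * Real.log (n + 1) ≤ j →
            s < (n + 1) ^ A → t < (n + 1) ^ A → N < (n + 1) ^ A → 2 ≤ N →
            ¬ (N : ℤ[T;T⁻¹]) ∣ J (O s) (fun k => X k ω) i j - g t) ∧
          (∀ i j i' j' s t N : ℕ, i ≤ j → j' ≤ n →
            j + K * Real.log (n + 1) ≤ j' → i' + K * Real.log (n + 1) ≤ j' →
            s < (n + 1) ^ A → t < (n + 1) ^ A → N < (n + 1) ^ A → 2 ≤ N →
            ¬ (N : ℤ[T;T⁻¹]) ∣
              J (O s) (fun k => X k ω) i j - J (O t) (fun k => X k ω) i' j') ∧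
          (∀ i j s : ℕ, j ≤ n → i + K * Real.log (n + 1) ≤ j → s < (n + 1) ^ A →
            (osize (O s) : ℝ) ≤ κ * ((j - i : ℕ) + 1) →
            δ * (j - i : ℕ) < nonmult M (J (O s) (fun k => X k ω) i j) ∧
            ∀ (Q : Type) (_ : Finite Q) (D : Diagram Q), (dsize D : ℝ) ≤ δ * (j - i : ℕ) →
              ¬ (M : ℤ[T;T⁻¹]) ∣ J (O s) (fun k => X k ω) i j - D.fPoly) := by
  obtain ⟨r, hr, hr1, ⟨C, hC⟩, h2, h3⟩ :=
    (Pool.Agent.Results.MP_42db45_gt.RandomBraidsModN.result m hm).1 p hp hs
  have hp' : ∀ x, 0 ≤ p x := fun x => (hp x).le
  have x0 : Letter m := (true, ⟨0, by omega⟩)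
  refine ⟨KK A r, KK_pos A r hr hr1, ?_⟩
  intro M hM κ
  obtain ⟨δ, hδ, C2, h4⟩ := h2 M hM κ
  obtain ⟨ε, hε, C3, h5⟩ := h3 M hM κ
  refine ⟨min δ ε, lt_min hδ hε, ?_⟩
  intro Ω _ P X hX O g
  filter_upwards [part1 p hp' hs X hX.1 hX.2 C r hr hr1 hC A O g,
    part2 x0 p hp' hs X hX.1 hX.2 C r hr hr1 hC A O,
    part3 p hp' hs X hX.1 hX.2 C2 r hr hr1 κ
      (fun O n w => (nonmult M (diagram O w).fPoly : ℝ) ≤ δ * n) h4 A O,
    part3 p hp' hs X hX.1 hX.2 C3 r hr hr1 κ
      (fun O n w => ∃ (Q : Type) (_ : Finite Q) (D : Diagram Q), (dsize D : ℝ) ≤ ε * n ∧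
        (M : ℤ[T;T⁻¹]) ∣ (diagram O w).fPoly - D.fPoly) h5 A O] with ω h6 h7 h8 h9
  filter_upwards [h6, h7, h8, h9] with n h6 h7 h8 h9
  refine ⟨h6, h7, fun i j s hj hij hs hO => ⟨?_, ?_⟩⟩
  · have := h8 i j s hj hij hs hO
    push Not at this
    refine lt_of_le_of_lt ?_ this
    exact mul_le_mul_of_nonneg_right (min_le_left _ _) (Nat.cast_nonneg _)
  · intro Q hQ D hD hdvd
    apply h9 i j s hj hij hs hO
    refine ⟨Q, hQ, D, hD.trans ?_, hdvd⟩
    exact mul_le_mul_of_nonneg_right (min_le_right _ _) (Nat.cast_nonneg _)

end Pool.Agent.Results.MP_42db45_gt.RandomBraidPaths
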